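import Mathlib

/-! Extension of derivations in characteristic zero (module EXT of the few periods theorem). -/

namespace Helper42FPD

open scoped nonZeroDivisors

/-- Every extension of fields of characteristic zero is formally smooth. -/
theorem formallySmooth_field (F K : Type*) [Field F] [Field K] [Algebra F K] [CharZero F] :
    Algebra.FormallySmooth F K := by
  obtain ⟨s, hs⟩ := exists_isTranscendenceBasis F K
  have hb : AlgebraicIndependent F ((↑) : s → K) := hs.1
  have : Algebra.IsAlgebraic (IntermediateField.adjoin F (Set.range ((↑) : s → K))) K :=
    hs.isAlgebraic_field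
  have : Algebra.IsSeparable (IntermediateField.adjoin F (Set.range ((↑) : s → K))) K :=
    inferInstance
  exact .of_algebraicIndependent_of_isSeparable hb

/-- A field of characteristic zero is formally smooth over every subring. -/
theorem formallySmooth_domain (S K : Type*) [CommRing S] [IsDomain S] [Field K] [Algebra S K]
    [CharZero S] (hinj : Function.Injective (algebraMap S K)) :
    Algebra.FormallySmooth S K := by
  have : Module.IsTorsionFree S K := by
    exact (Module.isTorsionFree_iff_algebraMap_injective).2 hinj
  letI : Algebra (FractionRing S) K := FractionRing.liftAlgebra S K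
  have : IsScalarTower S (FractionRing S) K := inferInstance
  have : CharZero (FractionRing S) := inferInstance
  have : Algebra.FormallySmooth S (FractionRing S) := .of_isLocalization (nonZeroDivisors S)
  have : Algebra.FormallySmooth (FractionRing S) K := formallySmooth_field _ _
  exact .comp S (FractionRing S) K

/-- Infinitesimal lifting for ring homomorphisms. -/
theorem exists_ringHom_lift {S K B : Type*} [CommRing S] [CommRing K] [CommRing B] [Algebra S K]
    [Algebra.FormallySmooth S K] (φ : S →+* B) (g : B →+* K) (hg : Function.Surjective g)
    (hk : IsNilpotent (RingHom.ker g)) (h : g.comp φ = algebraMap S K) :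
    ∃ f : K →+* B, g.comp f = RingHom.id K ∧ f.comp (algebraMap S K) = φ := by
  letI : Algebra S B := φ.toAlgebra
  let g' : B →ₐ[S] K := { g with commutes' := fun r => congrArg (fun u : S →+* K => u r) h }
  have hg' : Function.Surjective g' := hg
  have hk' : IsNilpotent (RingHom.ker (g' : B →+* K)) := hk
  refine ⟨(Algebra.FormallySmooth.liftOfSurjective (AlgHom.id S K) g' hg' hk' : K →ₐ[S] B),
    ?_, ?_⟩
  · ext x
    have := Algebra.FormallySmooth.liftOfSurjective_apply (AlgHom.id S K) g' hg' hk' x
    exact this
  · ext r
    exact (Algebra.FormallySmooth.liftOfSurjective (AlgHom.id S K) g' hg' hk').commutes r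

/-- Extension of derivations: a `k`-derivation from a subalgebra `S` of a field `K` of
characteristic zero with values in `K` extends to a `k`-derivation of `K`. -/
theorem exists_derivation_extension {k K : Type*} [CommRing k] [Field K] [CharZero K]
    [Algebra k K] (S : Subalgebra k K) (D : Derivation k S K) :
    ∃ D' : Derivation k K K, ∀ s : S, D' (s : K) = D s := by
  have : CharZero S := (algebraMap S K).charZero
  have : Algebra.FormallySmooth S K :=
    formallySmooth_domain S K (Subtype.val_injective)
  let φ : S →+* TrivSqZeroExt K K :=
    { toFun := fun s => TrivSqZeroExt.inl (s : K) + TrivSqZeroExt.inr (D s)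
      map_one' := by
        ext <;> simp
      map_mul' := by
        intro a b
        ext
        · simp
        · have e : D (a * b) = (a : K) * D b + (b : K) * D a := D.leibniz a b
          simp only [TrivSqZeroExt.snd_add, TrivSqZeroExt.snd_inl, TrivSqZeroExt.snd_inr,
            TrivSqZeroExt.snd_mul, TrivSqZeroExt.fst_add, TrivSqZeroExt.fst_inl,
            TrivSqZeroExt.fst_inr, e, smul_eq_mul, MulOpposite.smul_eq_mul_unop,
            MulOpposite.unop_op]
          ring
      map_zero' := by
        ext <;> simp
      map_add' := by
        intro a b
        ext <;> simp }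
  let g : TrivSqZeroExt K K →+* K := (TrivSqZeroExt.fstHom K K K : TrivSqZeroExt K K →+* K)
  have hg : Function.Surjective g := fun x => ⟨TrivSqZeroExt.inl x, by simp [g]⟩
  have hk : IsNilpotent (RingHom.ker g) := by
    have e : RingHom.ker g * RingHom.ker g = ⊥ := by
      rw [eq_bot_iff, Ideal.mul_le]
      intro r hr s hs
      have hr' : r.fst = 0 := hr
      have hs' : s.fst = 0 := hs
      rw [Ideal.mem_bot]
      ext <;> simp [hr', hs']
    exact ⟨2, (pow_two (RingHom.ker g)).trans e⟩
  obtain ⟨f, hf1, hf2⟩ := exists_ringHom_lift φ g hg hk (by
    ext s
    simp [g, φ])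
  have h1 : ∀ x : K, (f x).fst = x := fun x => congrArg (fun u : K →+* K => u x) hf1
  have h2 : ∀ s : S, f (s : K) = TrivSqZeroExt.inl (s : K) + TrivSqZeroExt.inr (D s) :=
    fun s => congrArg (fun u : S →+* TrivSqZeroExt K K => u s) hf2
  have h3 : ∀ c : k, f (algebraMap k K c) = TrivSqZeroExt.inl (algebraMap k K c) := by
    intro c
    have := h2 (algebraMap k S c)
    rw [Derivation.map_algebraMap] at this
    simpa using this
  refine ⟨Derivation.mk' { toFun := fun x => (f x).snd
                           map_add' := by intro x y; simp
                           map_smul' := by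
                             intro c x
                             rw [Algebra.smul_def, map_mul, h3]
                             simp [h1, Algebra.smul_def] } ?_, ?_⟩
  · intro a b
    simp [h1, mul_comm]
  · intro s
    have := congrArg TrivSqZeroExt.snd (h2 s)
    simpa using this

/-- A derivation which kills a subring kills every element algebraic over it. -/
theorem derivation_zero_of_algebraic {k K : Type*} [CommRing k] [Field K] [CharZero K]
    [Algebra k K] (D : Derivation k K K) (A : Subring K) (hA : ∀ a ∈ A, D a = 0) {x : K}
    (hx : IsAlgebraic A x) : D x = 0 := by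
  obtain ⟨p, hp0, hp⟩ := hx
  have key : ∀ q : Polynomial A, D (Polynomial.aeval x q) =
      Polynomial.aeval x (Polynomial.derivative q) * D x := by
    intro q
    induction q using Polynomial.induction_on' with
    | add p q hp hq => simp [map_add, hp, hq, add_mul]
    | monomial n a =>
      have ha : D (a : K) = 0 := hA a a.2
      rw [Polynomial.derivative_monomial, Polynomial.aeval_monomial, Polynomial.aeval_monomial]
      have e1 : (algebraMap A K) a = (a : K) := rfl
      have e2 : (algebraMap A K) (a * (n : A)) = (a : K) * (n : K) := by
        simp [e1]
      rw [e1, e2, D.leibniz, ha, Derivation.leibniz_pow]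
      simp [smul_eq_mul]
      ring
  have main : ∀ N : ℕ, ∀ q : Polynomial A, q.natDegree ≤ N → q ≠ 0 →
      Polynomial.aeval x q = 0 → D x = 0 := by
    intro N
    induction N with
    | zero =>
      intro q hq hq0 hqx
      exfalso
      rw [Polynomial.eq_C_of_natDegree_le_zero hq] at hqx
      have : (q.coeff 0 : K) = 0 := by simpa using hqx
      apply hq0
      rw [Polynomial.eq_C_of_natDegree_le_zero hq]
      have h0 : q.coeff 0 = 0 := Subtype.ext this
      rw [h0, Polynomial.C_0]
    | succ N ih =>
      intro q hq hq0 hqx
      by_cases hd : q.natDegree = 0
      · exact ih q (by omega) hq0 hqx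
      have h1 := key q
      rw [hqx, D.map_zero] at h1
      rcases mul_eq_zero.1 h1.symm with h2 | h2
      · refine ih (Polynomial.derivative q) ?_ ?_ h2
        · have := Polynomial.natDegree_derivative_lt hd
          omega
        · intro h3
          have : CharZero A := (algebraMap A K).charZero
          exact hd (Polynomial.derivative_eq_zero.1 h3)
      · exact h2
  exact main _ p le_rfl hp0 hp

end Helper42FPD
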